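import Mathlib
import Pool.Agent.Lib_helper33.CS.AInv
import Pool.Agent.Lib_helper33.CS.WStar
import Pool.Agent.Lib_helper33.CS.Dual

/-!
Question Q2, parts (a) and (b), both affirmative: every second countable amenable locally compact
group carries an absolutely continuous asymptotically invariant convolution semigroup, and so does
its dual.
-/

open MeasureTheory Filter Topology
open scoped ENNReal NNReal ZeroAtInfty BoundedContinuousFunction ComplexConjugate ComplexOrder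
  ComplexInnerProductSpace

set_option linter.unusedSectionVars false

namespace Pool.Agent.Results.MP_5d826d_an.AmenableSemigroups

/-- A topological group is amenable if there is a left invariant mean on the space of bounded
continuous real functions. -/
def IsAmenable (H : Type*) [Group H] [TopologicalSpace H] : Prop :=
  ∃ M : (H →ᵇ ℝ) →ₗ[ℝ] ℝ, M 1 = 1 ∧ (∀ f : H →ᵇ ℝ, (∀ x, 0 ≤ f x) → 0 ≤ M f) ∧
    ∀ (s : H) (f g : H →ᵇ ℝ), (∀ x, g x = f (s * x)) → M g = M f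

/-! ### The group side -/

/-- A convolution semigroup of probability measures on a topological group `H`: a family
`(μ_t)`, `t ≥ 0`, of (Borel) probability measures with `μ_0` the unit mass at the identity and
`μ_{s+t} = μ_s * μ_t` (multiplicative convolution of measures). -/
structure IsConvolutionSemigroup {H : Type*} [Group H] [MeasurableSpace H]
    (μ : ℝ≥0 → Measure H) : Prop where
  prob : ∀ t, IsProbabilityMeasure (μ t)
  zero : μ 0 = Measure.dirac 1
  add : ∀ s t, μ (s + t) = Measure.mconv (μ s) (μ t)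

/-- Weak-star continuity: `∫ f dμ_t → f(1)` as `t → 0+` for every continuous complex valued `f`
vanishing at infinity. -/
def IsWeakStarContinuous {H : Type*} [Group H] [TopologicalSpace H] [MeasurableSpace H]
    (μ : ℝ≥0 → Measure H) : Prop :=
  ∀ f : C₀(H, ℂ), Tendsto (fun t : ℝ≥0 => ∫ x, f x ∂(μ t)) (𝓝[>] 0) (𝓝 (f 1))

/-- The Hilbert space `L²(H, m)`. -/
def L2 {H : Type*} [MeasurableSpace H] (m : Measure H) : Type _ := Lp ℂ 2 m

noncomputable instance {H : Type*} [MeasurableSpace H] (m : Measure H) :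
    NormedAddCommGroup (L2 m) :=
  (Lp.instNormedAddCommGroup : NormedAddCommGroup (Lp ℂ 2 m))

noncomputable instance {H : Type*} [MeasurableSpace H] (m : Measure H) :
    NormedSpace ℝ (L2 m) :=
  (Lp.instNormedSpace : NormedSpace ℝ (Lp ℂ 2 m))

variable {H : Type*} [Group H] [TopologicalSpace H] [IsTopologicalGroup H] [T2Space H]
  [LocallyCompactSpace H] [SecondCountableTopology H] [MeasurableSpace H] [BorelSpace H]

lemma memLp_translate (m : Measure H) [m.IsHaarMeasure] (s : H) (f : Lp ℂ 2 m) :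
    MemLp (fun x => f (s⁻¹ * x)) 2 m :=
  (Lp.memLp f).comp_measurePreserving (measurePreserving_smul s⁻¹ m)

/-- The left regular representation, `(λ_s f)(x) = f(s⁻¹ x)`. -/
noncomputable def leftReg (m : Measure H) [m.IsHaarMeasure] (s : H) (f : L2 m) : L2 m :=
  (memLp_translate m s f).toLp _

/-- The operator `λ(μ) = ∫ λ_s dμ(s)` on `L²(H, m)`. -/
noncomputable def lam (m : Measure H) [m.IsHaarMeasure] (μ : Measure H) (f : L2 m) : L2 m :=
  ∫ s, leftReg m s f ∂μ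

/-- `c` is the operator norm of `T`. -/
def IsOpNorm {m : Measure H} (T : L2 m → L2 m) (c : ℝ) : Prop :=
  IsLeast {b : ℝ | 0 ≤ b ∧ ∀ f, ‖T f‖ ≤ b * ‖f‖} c

/-- The semigroup of Q2 (a): a weak-star continuous convolution semigroup with, for `t > 0`, `μ_t`
absolutely continuous and `‖λ(μ_t)‖ = 1`, and with `‖λ(ω * μ_t) - λ(μ_t)‖ → 0` as `t → ∞` for
every absolutely continuous probability measure `ω`; also `ω * μ_t - μ_t → 0` in total
variation. -/
structure IsInvariantSemigroup (m : Measure H) [m.IsHaarMeasure] (μ : ℝ≥0 → Measure H) : Prop where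
  conv : IsConvolutionSemigroup μ
  cont : IsWeakStarContinuous μ
  ac : ∀ t, 0 < t → μ t ≪ m
  norm_one : ∀ t, 0 < t → IsOpNorm (lam m (μ t)) 1
  inv : ∀ ω : Measure H, IsProbabilityMeasure ω → ω ≪ m → ∀ ε : ℝ, 0 < ε →
    ∃ t₀ : ℝ≥0, ∀ t, t₀ ≤ t → ∀ f : L2 m,
      ‖lam m (Measure.mconv ω (μ t)) f - lam m (μ t) f‖ ≤ ε * ‖f‖
  tv : ∀ ω : Measure H, IsProbabilityMeasure ω → ω ≪ m → ∀ ε : ℝ, 0 < ε →
    ∃ t₀ : ℝ≥0, ∀ t, t₀ ≤ t → ∀ E : Set H, MeasurableSet E →
      |(Measure.mconv ω (μ t)).real E - (μ t).real E| ≤ ε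

/-! ### The dual side -/

/-- Positive definite functions on a group. -/
def IsPosDef {H : Type*} [Group H] (φ : H → ℂ) : Prop :=
  ∀ (n : ℕ) (x : Fin n → H) (c : Fin n → ℂ),
    0 ≤ ∑ i, ∑ j, conj (c i) * c j * φ ((x i)⁻¹ * x j)

/-- Membership in the Fourier algebra `A(H)`, the predual of the von Neumann algebra of `H`:
`u(s) = ∑ ⟨λ_s f_n, g_n⟩` with `f_n, g_n` in `L²(H, m)` and `∑ ‖f_n‖²`, `∑ ‖g_n‖²` finite. -/
def IsFourier {H : Type*} [Group H] [MeasurableSpace H] (m : Measure H) (u : H → ℂ) : Prop :=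
  ∃ f g : ℕ → H → ℂ, (∀ n, MemLp (f n) 2 m) ∧ (∀ n, MemLp (g n) 2 m) ∧
    Summable (fun n => ∫ x, ‖f n x‖ ^ 2 ∂m) ∧ Summable (fun n => ∫ x, ‖g n x‖ ^ 2 ∂m) ∧
    ∀ s, HasSum (fun n => ∫ x, f n (s⁻¹ * x) * conj (g n x) ∂m) (u s)

/-- A convolution semigroup on the dual of `H`. -/
structure IsDualConvolutionSemigroup {H : Type*} [Group H] [TopologicalSpace H]
    (φ : ℝ≥0 → H → ℂ) : Prop where
  continuous : ∀ t, Continuous (φ t)
  posDef : ∀ t, IsPosDef (φ t)
  one : ∀ t, φ t 1 = 1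
  zero : ∀ x, φ 0 x = 1
  add : ∀ s t x, φ (s + t) x = φ s x * φ t x

/-- Weak-star continuity on the dual side: `∫ f φ_t dm → ∫ f dm` as `t → 0+` for every integrable
`f`. (As `φ_t` is in the unit ball of `B(H)` and `L¹(H)` is dense in `C*(H)`, this is
`φ_t → 1` weak-star in `B(H) = C*(H)*`.) -/
def IsDualWeakStarContinuous {H : Type*} [MeasurableSpace H] (m : Measure H)
    (φ : ℝ≥0 → H → ℂ) : Prop :=
  ∀ f : H → ℂ, Integrable f m →
    Tendsto (fun t : ℝ≥0 => ∫ x, f x * φ t x ∂m) (𝓝[>] 0) (𝓝 (∫ x, f x ∂m))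

/-- The semigroup of Q2 (b): a weak-star continuous convolution semigroup on the dual of `H` with
`φ_t` in `A(H)` for `t > 0` and `sup |ω φ_t - φ_t| → 0` as `t → ∞` for every `ω` in `A(H)` with
`ω(1) = 1` (positive definite or not); also `φ_t → 1` uniformly on compact sets as `t → 0`. -/
structure IsDualInvariantSemigroup (m : Measure H) (φ : ℝ≥0 → H → ℂ) : Prop where
  conv : IsDualConvolutionSemigroup φ
  cont : IsDualWeakStarContinuous m φ
  cont_compact : ∀ K : Set H, IsCompact K → ∀ ε : ℝ, 0 < ε →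
    ∃ t₀ : ℝ≥0, 0 < t₀ ∧ ∀ t, t ≤ t₀ → ∀ g ∈ K, ‖φ t g - 1‖ ≤ ε
  fourier : ∀ t, 0 < t → IsFourier m (φ t)
  inv : ∀ ω : H → ℂ, IsFourier m ω → ω 1 = 1 → ∀ ε : ℝ, 0 < ε →
    ∃ t₀ : ℝ≥0, ∀ t, t₀ ≤ t → ∀ g, ‖ω g * φ t g - φ t g‖ ≤ ε

/-! ### Proofs -/

open Pool.Agent.Helper33.CS

lemma leftReg_eq (m : Measure H) [m.IsHaarMeasure] (s : H) (f : Lp ℂ 2 m) :
    leftReg m s f = lreg m s f := by
  have h1 := lreg_toLp s (Lp.memLp f)
  rw [Lp.toLp_coeFn] at h1
  exact h1.symm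

lemma lam_eq (m : Measure H) [m.IsHaarMeasure] (μ : Measure H) (f : Lp ℂ 2 m) :
    lam m μ f = lop m μ f := by
  rw [lop_apply]
  unfold lam
  have h : (fun s => leftReg m s f) = fun s => lreg m s f := funext (fun s => leftReg_eq m s f)
  rw [h]
  rfl

lemma norm_lam (m : Measure H) [m.IsHaarMeasure] (μ : Measure H) (f : L2 m) :
    ‖lam m μ f‖ = ‖lop m μ f‖ :=
  congrArg (fun g : Lp ℂ 2 m => ‖g‖) (lam_eq m μ f)

lemma norm_lam_sub (m : Measure H) [m.IsHaarMeasure] (μ ν : Measure H) (f : L2 m) :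
    ‖lam m μ f - lam m ν f‖ = ‖(lop m μ - lop m ν) f‖ :=
  congrArg₂ (fun g h : Lp ℂ 2 m => ‖g - h‖) (lam_eq m μ f) (lam_eq m ν f)

lemma isPosDef_of {φ : H → ℂ} (h : PDf φ) : IsPosDef φ := by
  intro n x c
  have h1 := Matrix.PosSemidef.submatrix h x
  have h2 := h1.dotProduct_mulVec_nonneg c
  refine h2.trans (le_of_eq ?_)
  simp only [dotProduct, Matrix.mulVec, Matrix.submatrix_apply, Matrix.of_apply, Pi.star_apply,
    Finset.mul_sum]
  refine Finset.sum_congr rfl (fun i _ => Finset.sum_congr rfl (fun j _ => ?_))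
  rw [← starRingEnd_apply]
  ring

lemma isFourier_of {m : Measure H} [m.IsHaarMeasure] {u : H → ℂ} (h : PF m u) :
    IsFourier m u := by
  obtain ⟨F, hF, hFs⟩ := h
  have hL : ∀ n, MemLp (F n : H → ℂ) 2 m := fun n => Lp.memLp (F n)
  have hn : ∀ n, ∫ x, ‖F n x‖ ^ 2 ∂m = ‖F n‖ ^ 2 := by
    intro n
    rw [← norm_sq_toLp (hL n), Lp.toLp_coeFn]
  refine ⟨fun n => F n, fun n => F n, hL, hL, ?_, ?_, fun s => ?_⟩
  · simp only [hn]; exact hF
  · simp only [hn]; exact hF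
  · refine (hFs s).congr_fun (fun n => ?_)
    have h1 := lreg_toLp s (hL n)
    rw [Lp.toLp_coeFn] at h1
    have h2 : ⟪F n, lreg m s (F n)⟫
        = ⟪(hL n).toLp _, ((hL n).comp_measurePreserving
            (measurePreserving_smul s⁻¹ m)).toLp (fun x => F n (s⁻¹ • x))⟫ := by
      rw [h1, Lp.toLp_coeFn]
    show _ = coef m (F n) s
    unfold coef
    rw [h2, inner_toLp]
    congr 1
    funext x
    rw [smul_eq_mul, mul_comm]

lemma IsFourier.regular {m : Measure H} [m.IsHaarMeasure] {u : H → ℂ} (h : IsFourier m u) :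
    Continuous u ∧ ∃ C : ℝ, ∀ s, ‖u s‖ ≤ C := by
  obtain ⟨f, g, hf, hg, hfs, hgs, hu⟩ := h
  have hterm : ∀ n s, ∫ x, f n (s⁻¹ * x) * conj (g n x) ∂m
      = ⟪(hg n).toLp _, lreg m s ((hf n).toLp _)⟫ := by
    intro n s
    rw [lreg_toLp s (hf n), inner_toLp]
    congr 1
    funext x
    rw [smul_eq_mul, mul_comm]
  simp only [hterm] at hu
  have hsum : Summable (fun n => (∫ x, ‖g n x‖ ^ 2 ∂m) + ∫ x, ‖f n x‖ ^ 2 ∂m) := hgs.add hfs
  have hb : ∀ n s, ‖⟪(hg n).toLp _, lreg m s ((hf n).toLp _)⟫‖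
      ≤ (∫ x, ‖g n x‖ ^ 2 ∂m) + ∫ x, ‖f n x‖ ^ 2 ∂m := by
    intro n s
    refine (norm_inner_le_norm _ _).trans ?_
    rw [norm_lreg, ← norm_sq_toLp (hg n), ← norm_sq_toLp (hf n)]
    nlinarith [sq_nonneg (‖(hg n).toLp _‖ - ‖(hf n).toLp _‖), norm_nonneg ((hg n).toLp _),
      norm_nonneg ((hf n).toLp _)]
  have hue : u = fun s => ∑' n, ⟪(hg n).toLp _, lreg m s ((hf n).toLp _)⟫ := by
    funext s
    exact (hu s).tsum_eq.symm
  refine ⟨?_, ∑' n, ((∫ x, ‖g n x‖ ^ 2 ∂m) + ∫ x, ‖f n x‖ ^ 2 ∂m), fun s => ?_⟩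
  · rw [hue]
    exact continuous_tsum (fun n => continuous_const.inner (continuous_lreg _)) hsum
      (fun n s => hb n s)
  · rw [← (hu s).tsum_eq]
    exact tsum_of_norm_bounded hsum.hasSum (fun n => hb n s)

theorem part_a (m : Measure H) [m.IsHaarMeasure] (hH : IsAmenable H) :
    ∃ μ : ℝ≥0 → Measure H, IsInvariantSemigroup m μ := by
  obtain ⟨M, hM1, hM2, hM3⟩ := hH
  have hM : IsLeftInvMean M := ⟨hM1, hM2, hM3⟩
  obtain ⟨μ, h1, h2, h3, h4, h5, h6⟩ := exists_inv_semigroup m hM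
  refine ⟨μ, ⟨h1, h2, h3⟩, ?_, h5, ?_, ?_, ?_⟩
  · exact fun f => wstar h1 h4 f
  · intro t _
    have := h1 t
    have h7 := norm_lop_eq_one m hM (μ t)
    refine ⟨⟨zero_le_one, fun f => ?_⟩, fun b hb => ?_⟩
    · have h8 := (lop m (μ t)).le_opNorm f
      rw [h7] at h8
      rw [norm_lam]
      exact h8
    · rw [← h7]
      refine ContinuousLinearMap.opNorm_le_bound _ hb.1 (fun f => ?_)
      exact (norm_lam m (μ t) f).symm.le.trans (hb.2 f)
  · intro ω hω hωac ε hε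
    obtain ⟨t₀, ht₀⟩ := h6 ω hω hωac ε hε
    refine ⟨t₀, fun t ht f => ?_⟩
    have := h1 t
    have h8 := norm_lop_sub_le (m := m) hε.le (ht₀ t ht)
    have h9 := (lop m (Measure.mconv ω (μ t)) - lop m (μ t)).le_of_opNorm_le h8 f
    rw [norm_lam_sub]
    exact h9
  · intro ω hω hωac ε hε
    obtain ⟨t₀, ht₀⟩ := h6 ω hω hωac ε hε
    refine ⟨t₀, fun t ht E hE => ?_⟩
    have := h1 t
    have h8 := ht₀ t ht (Pool.Agent.Helper37.Sg.ind E hE)
    rw [Pool.Agent.Helper37.Sg.integral_ind, Pool.Agent.Helper37.Sg.integral_ind] at h8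
    refine h8.trans ?_
    refine mul_le_of_le_one_right hε.le ?_
    refine Pool.Agent.Helper37.Sg.norm_le_of zero_le_one (fun x => ?_)
    rw [Pool.Agent.Helper37.Sg.fn_ind]
    by_cases h : x ∈ E <;> simp [h]

theorem part_b (m : Measure H) [m.IsHaarMeasure] (hH : IsAmenable H) :
    ∃ φ : ℝ≥0 → H → ℂ, IsDualInvariantSemigroup m φ := by
  obtain ⟨M, hM1, hM2, hM3⟩ := hH
  have hM : IsLeftInvMean M := ⟨hM1, hM2, hM3⟩
  obtain ⟨ψ, hψc, hψ1, hre, hpd, hpf, hU⟩ := exists_exponent m hM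
  refine ⟨fun t s => Complex.exp (-(((t : ℝ) : ℂ) * ψ s)), ⟨⟨fun t => ?_, fun t => ?_, fun t => ?_,
    fun x => ?_, fun s t x => ?_⟩, fun f hf => ?_, fun K hK ε hε => ?_, fun t ht => ?_,
    fun ω hω hω1 ε hε => ?_⟩⟩
  · exact Complex.continuous_exp.comp ((continuous_const.mul hψc).neg)
  · exact isPosDef_of (hpd t t.coe_nonneg)
  · simp [hψ1]
  · simp
  · show Complex.exp (-((((s + t : ℝ≥0) : ℝ) : ℂ) * ψ x)) = _
    rw [← Complex.exp_add]
    congr 1
    push_cast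
    ring
  · exact (phi_wstar hψc hre hf).mono_left nhdsWithin_le_nhds
  · obtain ⟨t₀, ht₀, h⟩ := phi_compact hψc hK hε
    exact ⟨⟨t₀, ht₀.le⟩, ht₀, fun t ht g hg => h t t.coe_nonneg ht g hg⟩
  · exact isFourier_of (hpf t ht)
  · obtain ⟨hωc, C, hC⟩ := hω.regular
    obtain ⟨t₀, ht₀, h⟩ := phi_asymp hre hU hωc hω1 hC hε
    exact ⟨⟨t₀, ht₀⟩, fun t ht g => h t ht g⟩

/-- Every second countable amenable locally compact (Hausdorff) group `H`, with left Haar measure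
`m`, satisfies Q2 (a) and Q2 (b). -/
theorem result :
    ∀ (H : Type*) [Group H] [TopologicalSpace H] [IsTopologicalGroup H] [T2Space H]
      [LocallyCompactSpace H] [SecondCountableTopology H] [MeasurableSpace H] [BorelSpace H]
      (m : Measure H) [m.IsHaarMeasure], IsAmenable H →
      (∃ μ : ℝ≥0 → Measure H, IsInvariantSemigroup m μ) ∧
      ∃ φ : ℝ≥0 → H → ℂ, IsDualInvariantSemigroup m φ := by
  intro H _ _ _ _ _ _ _ _ m _ hH
  exact ⟨part_a m hH, part_b m hH⟩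

end Pool.Agent.Results.MP_5d826d_an.AmenableSemigroups
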